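import Pool.Agent.H27.QH

namespace Pool.Agent.Results.MP_328b17_nt.Constant
open Finset Polynomial Pool.Agent.H27.QC Pool.Agent.H27.QC.Loc Pool.Agent.H27.QD
open Pool.Agent.H27.QF Pool.Agent.H27.QH

/-- the shifted factorial `(a; b)_k` -/
def poch {K : Type*} [Field K] (a b : K) (k : ℕ) : K := ∏ i ∈ range k, (1 - a * b ^ i)

/-- the `q`-integer `[m]` for an integer `m` -/
def qint {K : Type*} [Field K] (q : K) (m : ℤ) : K := (1 - q ^ m) / (1 - q)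

/-- `S_p(q)` -/
def S {K : Type*} [Field K] (q : K) (p : ℕ) : K := ∑ j ∈ range p,
  qint q (2 * ((p : ℤ) - 1) * j - 1)
    * (poch q⁻¹ (q ^ (p - 1)) j / poch (q ^ (p - 1)) (q ^ (p - 1)) j) ^ (2 * (p - 1))
      * q ^ (j * (p - 1) ^ 2)

/-- the polynomial `c (1 - q) ^ 2 Φ_p(q) ^ 4` -/
noncomputable def R (c : ℚ) (p : ℕ) : RatFunc ℚ :=
  algebraMap ℚ[X] _ (C c * (1 - X) ^ 2 * cyclotomic p ℚ ^ 4)

/-- congruence modulo `Φ_p(q) ^ 5` -/
def Cong (p : ℕ) (F G : RatFunc ℚ) : Prop := ∃ A B : ℚ[X], IsCoprime B (cyclotomic p ℚ) ∧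
  F - G = algebraMap _ _ (cyclotomic p ℚ ^ 5 * A) / algebraMap _ _ B

variable {K : Type*} [Field K] [CharZero K] {L : Loc K}

theorem main {d : ℕ} (hn : L.n = d + 1) (hd : 0 < d) : L.E 5 (S L.q L.n)
    (d ^ 2 * (d - 1) ^ 2 * (d + 2) * (2 * d - 1) / 72 * (1 - L.q) ^ 2
      * ((1 - L.q ^ L.n) / (1 - L.q)) ^ 4) := by
  have q0 := L.q0
  have hU : L.U (1 - L.q) := by
    simpa using U.sub (L := L) (j := 1) (by rw [Nat.dvd_one]; omega)
  obtain ⟨κ, h1, h2⟩ := gen (L := L) (P := L.q ^ d) (d := d) (by omega) (U.q.pow d) (by ring)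
    fun j h0 hj => by
      rw [← pow_mul]
      refine U.sub fun h => ?_
      have := Nat.le_of_dvd h0 ((show Nat.Coprime L.n d by rw [hn]; simp).dvd_of_dvd_mul_left h)
      omega
  have h3 : L.E 1 κ (-2 * (1 - L.q)) := by
    refine (h1.add ((N3.qn.nr.inv.near).smul (mul_mem U2.1 L.hq))).of_sub ?_
    rw [hn]; field_simp; ring
  have uκ := h3.unit (U2.neg.mul hU)
  have hc := L.rat (d ^ 2 * (d - 1) ^ 2 * (d + 2) * (2 * d - 1) / 72)
  push_cast at hc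
  have e : S L.q L.n = (∑ j ∈ range L.n, (1 - L.q ^ d * ((L.q ^ d) ^ j) ^ 2 / L.q ^ L.n)
      / (L.q ^ d) ^ j * Pool.Agent.H27.QH.uu (L.q ^ d) (L.q ^ L.n) d j) / (1 - L.q) := by
    rw [S, sum_div]
    refine sum_congr rfl fun j _ => ?_
    have e1 : poch L.q⁻¹ (L.q ^ d) j / poch (L.q ^ d) (L.q ^ d) j = ∏ i ∈ range j,
        (1 - (L.q ^ d) ^ (i + 1) / L.q ^ L.n) / (1 - (L.q ^ d) ^ (i + 1)) := by
      rw [poch, poch, ← prod_div_distrib]
      refine prod_congr rfl fun i _ => ?_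
      rw [hn]
      congr 2
      · field_simp; ring
      · ring
    have e2 : (2 * ((L.n : ℤ) - 1) * j - 1) = (2 * d * j : ℕ) - (1 : ℕ) := by
      rw [hn]; push_cast; ring
    rw [show L.n - 1 = d by omega, e1, e2, qint, zpow_sub₀ q0, zpow_natCast, zpow_natCast,
      Pool.Agent.H27.QH.uu]
    simp only [mul_pow, prod_mul_distrib, prod_pow, prod_const, card_range]
    generalize ∏ i ∈ range j, (1 - (L.q ^ d) ^ (i + 1) / L.q ^ L.n) / (1 - (L.q ^ d) ^ (i + 1)) = A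
    rw [hn]
    field_simp
    ring
  refine E.cancel (((h2.smul hU.2.1).sub (h3.e_mul.e_mul.e_mul.e_mul.smul
    (div_mem' hc (hU.pow 2)))).of_sub ?_) uκ
  have := hU.2.2
  have e3 : (L.n : K) = d + 1 := by rw [hn]; push_cast; rfl
  rw [e, e3, show 1 - L.q ^ L.n = -L.e by unfold Loc.e; ring]
  generalize ∑ j ∈ range L.n, (1 - L.q ^ d * ((L.q ^ d) ^ j) ^ 2 / L.q ^ L.n)
      / (L.q ^ d) ^ j * Pool.Agent.H27.QH.uu (L.q ^ d) (L.q ^ L.n) d j = T
  field_simp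
  ring

theorem both (p : ℕ) (hp : p.Prime) (h3 : 3 < p) :
    Cong p (S RatFunc.X p) (R ((p - 1) ^ 2 * (p - 2) ^ 2 * (p + 1) * (2 * p - 3) / 72) p) ∧
    (Cong p (S RatFunc.X p) (R (1 / 6 * (p - 1) * (p - 3) * (2 * p - 3) * (p - 2) ^ 2) p)
      ↔ p = 5 ∨ p = 7) := by
  haveI := Fact.mk hp
  have h1 : Cong p (S RatFunc.X p)
      (R ((p - 1) ^ 2 * (p - 2) ^ 2 * (p + 1) * (2 * p - 3) / 72) p) := by
    obtain ⟨d, rfl⟩ : ∃ d, p = d + 1 := ⟨p - 1, by omega⟩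
    have := cyc_out (by omega) (main (L := cycL (d + 1) (by omega)) rfl (by omega))
    have h0 : (1 - RatFunc.X : RatFunc ℚ) ≠ 0 := by
      have := (cycL 1 one_pos).ne 1 one_pos
      rwa [pow_one] at this
    have e : algebraMap ℚ[X] (RatFunc ℚ) (cyclotomic (d + 1) ℚ)
        = (1 - RatFunc.X ^ (d + 1)) / (1 - RatFunc.X) := by
      rw [eq_div_iff h0, cyclotomic_prime, mul_comm]
      simpa using mul_neg_geom_sum (RatFunc.X : RatFunc ℚ) (d + 1)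
    obtain ⟨A, B, hB, e'⟩ := this
    refine ⟨A, B, hB, Eq.trans ?_ e'⟩
    rw [R, map_mul, map_mul, map_pow, map_pow, e, RatFunc.algebraMap_C,
      ← RatFunc.algebraMap_eq_C, eq_ratCast]
    simp only [cycL, map_sub, map_one, RatFunc.algebraMap_X]
    push_cast
    ring
  refine ⟨h1, fun h2 => ?_, ?_⟩
  · obtain ⟨A, B, hB, e⟩ := h1
    obtain ⟨A', B', hB', e'⟩ := h2
    have b1 := RatFunc.algebraMap_ne_zero (K := ℚ) (cyc_ne hp.pos hB)
    have b2 := RatFunc.algebraMap_ne_zero (K := ℚ) (cyc_ne hp.pos hB')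
    rw [eq_div_iff b1] at e
    rw [eq_div_iff b2] at e'
    have e3 : cyclotomic p ℚ ^ 4 * (C (1 / 6 * (p - 1) * (p - 3) * (2 * p - 3) * (p - 2) ^ 2
        - (p - 1) ^ 2 * (p - 2) ^ 2 * (p + 1) * (2 * p - 3) / 72 : ℚ) * (1 - X) ^ 2 * (B * B'))
        = cyclotomic p ℚ ^ 4 * (cyclotomic p ℚ * (A * B' - A' * B)) := by
      apply RatFunc.algebraMap_injective ℚ
      simp only [R, map_mul, map_pow, map_sub] at e e' ⊢
      linear_combination algebraMap ℚ[X] (RatFunc ℚ) B' * e - algebraMap ℚ[X] (RatFunc ℚ) B * e'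
    have e4 := (hB.mul_left hB').symm.dvd_of_dvd_mul_right
      ⟨_, mul_left_cancel₀ (pow_ne_zero 4 (cyclotomic_ne_zero p ℚ)) e3⟩
    have hi := cyclotomic.irreducible_rat hp.pos
    have e5 := ((hi.coprime_iff_not_dvd.mpr (cyc_not_dvd (j := 1) hp.pos
      (by rw [Nat.dvd_one]; omega))).pow_right (n := 2)).dvd_of_dvd_mul_right
        (by rw [pow_one]; exact e4)
    by_contra hne
    refine hi.not_isUnit (isUnit_of_dvd_unit e5 (isUnit_C.mpr (IsUnit.mk0 _ ?_)))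
    have a1 : (3 : ℚ) < p := by exact_mod_cast h3
    have a2 : (p : ℚ) - 5 ≠ 0 := fun h => hne (Or.inl (by exact_mod_cast sub_eq_zero.mp h))
    have a3 : (p : ℚ) - 7 ≠ 0 := fun h => hne (Or.inr (by exact_mod_cast sub_eq_zero.mp h))
    have a4 : (0 : ℚ) < (p - 1) * (p - 2) ^ 2 * (2 * p - 3) / 72 :=
      div_pos (mul_pos (mul_pos (by linarith) (pow_pos (by linarith) 2)) (by linarith)) (by norm_num)
    rw [show (1 / 6 * (p - 1) * (p - 3) * (2 * p - 3) * (p - 2) ^ 2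
        - (p - 1) ^ 2 * (p - 2) ^ 2 * (p + 1) * (2 * p - 3) / 72 : ℚ)
        = -((p - 1) * (p - 2) ^ 2 * (2 * p - 3) / 72 * ((p - 5) * (p - 7))) by ring]
    exact neg_ne_zero.mpr (mul_ne_zero a4.ne' (mul_ne_zero a2 a3))
  · rintro (rfl | rfl) <;> convert h1 using 2 <;> norm_num

theorem result (p : ℕ) (hp : p.Prime) (h3 : 3 < p) :
    Cong p (S RatFunc.X p) (R (1 / 6 * (p - 1) * (p - 3) * (2 * p - 3) * (p - 2) ^ 2) p) ↔ p = 5 ∨ p = 7 :=
  (both p hp h3).2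

end Pool.Agent.Results.MP_328b17_nt.Constant
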